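import Pool.Agent.Helper7.BM.Goals

/-!
# Project BM (MP_57df85_nt), packet BIN: the binomial series of `(1 - t) ^ (-1/d)`
-/

set_option autoImplicit false

namespace Pool.Agent.Helper28.BM

open Finset Pool.Agent.Helper7.BM

theorem cc_zero (d : ℕ) : cc d 0 = 1 := by simp [cc]

theorem cc_succ (d k : ℕ) :
    cc d (k + 1) = cc d k * ((1 + (k : ℝ) * d) / ((d : ℝ) * ((k : ℝ) + 1))) := by
  unfold cc
  rw [Finset.prod_range_succ]

theorem cc_asc (d : ℕ) (hd : 1 ≤ d) (k : ℕ) :
    (k.factorial : ℝ) * cc d k = (ascPochhammer ℝ k).eval (1 / (d : ℝ)) := by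
  have hd' : (0 : ℝ) < d := by exact_mod_cast hd
  induction k with
  | zero => simp [cc_zero]
  | succ k ih =>
    rw [ascPochhammer_succ_eval, ← ih, cc_succ, Nat.factorial_succ]
    push_cast
    field_simp

theorem cc_choose (d : ℕ) (hd : 1 ≤ d) (k : ℕ) :
    Ring.choose (1 / (d : ℝ) + k - 1) k = cc d k := by
  have h1 : Ring.choose (1 / (d : ℝ) + k - 1) k = Ring.multichoose (1 / (d : ℝ)) k := by
    unfold Ring.choose
    congr 1
    ring
  have h2 := Ring.factorial_nsmul_multichoose_eq_ascPochhammer (1 / (d : ℝ)) k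
  rw [Polynomial.ascPochhammer_smeval_eq_eval, ← cc_asc d hd k, nsmul_eq_mul] at h2
  rw [h1]
  exact mul_left_cancel₀ (by exact_mod_cast Nat.factorial_ne_zero k) h2

theorem cc_pos (d : ℕ) (hd : 1 ≤ d) (k : ℕ) : 0 < cc d k := by
  have hd' : (0 : ℝ) < d := by exact_mod_cast hd
  unfold cc
  exact Finset.prod_pos fun j _ => by positivity

theorem cc_le (d : ℕ) (hd : 1 ≤ d) (k : ℕ) : cc d (k + 1) ≤ cc d k := by
  have hd' : (1 : ℝ) ≤ d := by exact_mod_cast hd
  rw [cc_succ]
  refine mul_le_of_le_one_right (cc_pos d hd k).le ?_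
  rw [div_le_one (by positivity)]
  nlinarith

/-- **Packet BIN** -/
theorem bin : StmtBIN := by
  intro d hd
  have hd' : (0 : ℝ) < d := by exact_mod_cast hd
  refine ⟨fun t ht0 ht1 => ?_, fun k => ⟨cc_pos d hd k, cc_le d hd k⟩, ?_, ?_⟩
  · have h := Real.one_div_one_sub_rpow_hasFPowerSeriesOnBall_zero (1 / (d : ℝ))
    have hm : t ∈ Metric.eball (0 : ℝ) 1 := by
      simp only [Metric.mem_eball, edist_zero_right]
      rw [← ofReal_norm, Real.norm_of_nonneg ht0, ← ENNReal.ofReal_one]
      exact (ENNReal.ofReal_lt_ofReal_iff one_pos).2 ht1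
    have h2 := h.hasSum hm
    rw [zero_add] at h2
    have e1 : 1 / (1 - t) ^ (1 / (d : ℝ)) = (1 - t) ^ (-(1 / (d : ℝ))) := by
      rw [Real.rpow_neg (by linarith), one_div]
    rw [e1] at h2
    have e2 : (fun k : ℕ => cc d k * t ^ k) = fun k : ℕ =>
        FormalMultilinearSeries.ofScalars (𝕜 := ℝ) ℝ
          (fun n : ℕ => Ring.choose (1 / (d : ℝ) + n - 1) n) k (fun _ => t) := by
      funext k
      rw [FormalMultilinearSeries.ofScalars_apply_eq, cc_choose d hd k, smul_eq_mul]
    rw [e2]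
    exact h2
  · intro k hk
    induction k, hk using Nat.le_induction with
    | base =>
      have : cc d 1 = 1 / (d : ℝ) := by
        rw [show (1 : ℕ) = 0 + 1 from rfl, cc_succ, cc_zero]
        simp
      rw [this]
      simp
    | succ k hk ih =>
      have hk' : (0 : ℝ) < k := by exact_mod_cast hk
      refine ⟨?_, (cc_le d hd k).trans ih.2⟩
      rw [cc_succ]
      calc 1 / ((d : ℝ) * ((k + 1 : ℕ) : ℝ))
          = 1 / ((d : ℝ) * k) * ((k : ℝ) * d / ((d : ℝ) * ((k : ℝ) + 1))) := by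
            push_cast
            field_simp
        _ ≤ cc d k * ((1 + (k : ℝ) * d) / ((d : ℝ) * ((k : ℝ) + 1))) := by
            refine mul_le_mul ih.1 ?_ (by positivity) (cc_pos d hd k).le
            gcongr
            linarith
  · intro k
    induction k with
    | zero => exact ⟨1, by simp [cc_zero]⟩
    | succ k ih =>
      obtain ⟨m, hm⟩ := ih
      refine ⟨m * (1 + k * d), ?_⟩
      push_cast
      rw [← hm, cc_succ, Nat.factorial_succ, pow_succ]
      push_cast
      field_simp

end Pool.Agent.Helper28.BM
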